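import Pool.Agent.K1H62.IV.Stm

set_option autoImplicit false

/-! Project IV, piece (b): the orientation of a prime interval graph. -/

namespace Pool.Agent.K1H3.IV

open Pool.Agent.W878.VC Pool.Agent.K1H62.IV

/-- a partial order is compatible with the forcing of its comparability graph -/
theorem forc {lt : ℕ → ℕ → Prop} (h : SPO lt) (p q : ℕ × ℕ) (h1 : lt p.1 p.2)
    (h2 : Stp (Cmp lt) p q) : lt q.1 q.2 := by
  rcases h2 with ⟨e, h3, h4⟩ | ⟨e, h3, h4⟩
  · rcases h3 with h3 | h3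
    · exact h3
    · rw [← e] at h3
      exact absurd (Or.inr (h.trans _ _ _ h3 h1)) h4
  · rcases h3 with h3 | h3
    · exact h3
    · rw [← e] at h3
      exact absurd (Or.inl (h.trans _ _ _ h1 h3)) h4

theorem prm_co {A : ℕ → ℕ → Prop} (h : Prm A) : Prm (Co A) := by
  intro X hX
  apply h X
  intro u hu v hv w hw
  have hwu : w ≠ u := by rintro rfl; exact hw hu
  have hwv : w ≠ v := by rintro rfl; exact hw hv
  obtain ⟨a, b⟩ := hX u hu v hv w hw
  unfold Co at a b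
  constructor
  · have a1 : (¬ A u w) ↔ (¬ A v w) :=
      ⟨fun h => (a.1 ⟨hwu.symm, h⟩).2, fun h => (a.2 ⟨hwv.symm, h⟩).2⟩
    exact not_iff_not.1 a1
  · have b1 : (¬ A w u) ↔ (¬ A w v) :=
      ⟨fun h => (b.1 ⟨hwu, h⟩).2, fun h => (b.2 ⟨hwv, h⟩).2⟩
    exact not_iff_not.1 b1

theorem co_eq {A P : ℕ → ℕ → Prop} (hP : SPO P) (h : Inc A P) : Co A = Cmp P := by
  funext u v
  apply propext
  unfold Co Cmp
  rw [h u v]
  constructor
  · rintro ⟨h1, h2⟩
    by_contra h3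
    exact h2 ⟨h1, fun h4 => h3 (Or.inl h4), fun h4 => h3 (Or.inr h4)⟩
  · intro h1
    refine ⟨?_, ?_⟩
    · rintro rfl
      rcases h1 with h1 | h1 <;> exact hP.irr _ h1
    · rintro ⟨-, h2, h3⟩
      rcases h1 with h1 | h1
      · exact h2 h1
      · exact h3 h1

theorem tf_of_prm {A P : ℕ → ℕ → Prop} (h : Inc A P) (hA : Prm A) : TF P := by
  rintro u v huv ⟨h1, h2, h3, h4⟩
  have e1 : ∀ w, P w u ↔ P w v := fun w => ⟨h1 w, h2 w⟩
  have e2 : ∀ w, P u w ↔ P v w := fun w => ⟨h3 w, h4 w⟩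
  have hm : Mdl A ({u, v} : Set ℕ) := by
    have key : ∀ w, w ≠ u → w ≠ v → (A u w ↔ A v w) ∧ (A w u ↔ A w v) := by
      intro w hwu hwv
      rw [h u w, h v w, h w u, h w v, e1 w, e2 w]
      constructor
      · exact ⟨fun a => ⟨hwv.symm, a.2⟩, fun a => ⟨hwu.symm, a.2⟩⟩
      · exact ⟨fun a => ⟨hwv, a.2⟩, fun a => ⟨hwu, a.2⟩⟩
    intro x hx y hy w hw
    simp only [Set.mem_insert_iff, Set.mem_singleton_iff] at hx hy hw
    push Not at hw
    obtain ⟨k1, k2⟩ := key w hw.1 hw.2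
    rcases hx with rfl | rfl <;> rcases hy with rfl | rfl
    · exact ⟨Iff.rfl, Iff.rfl⟩
    · exact ⟨k1, k2⟩
    · exact ⟨k1.symm, k2.symm⟩
    · exact ⟨Iff.rfl, Iff.rfl⟩
  rcases hA _ hm with h5 | h5
  · exact huv (h5 (by simp) (by simp))
  · have h6 : (Set.univ : Set ℕ).Finite := by
      rw [← h5]
      exact Set.toFinite _
    exact Set.infinite_univ h6

/-- the normalized case -/
theorem main {A P : ℕ → ℕ → Prop} {p : Fin 2 → ℕ} {s : ℕ} (hP : Ivl P) (h : Inc A P) (hN : NN P s)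
    (hA : Prm A) (h0 : P (p 0) (p 1)) :
    Ivl (ori A p) ∧ TF (ori A p) ∧ Inc A (ori A p) ∧ ∃ s, NN (ori A p) s := by
  have hc : Co A = Cmp P := co_eq hP.1 h
  have hG : Gr (Co A) := by rw [hc]; exact gr_cmp hP.1
  have hf := forc hP.1
  rw [← hc] at hf
  have e : ori A p = P := by
    funext u v
    apply propext
    unfold ori
    exact (orient hG (prm_co hA) (E := P) (fun u v h' => by rw [hc]; exact Or.inl h')
      (fun u v a b => hP.1.asymm a b) hf h0 u v).symm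
  rw [e]
  exact ⟨hP, tf_of_prm h hA, h, s, hN⟩

theorem ivl_rev {P : ℕ → ℕ → Prop} (h : Ivl P) : Ivl (fun u v => P v u) :=
  ⟨⟨fun u => h.1.irr u, fun u v w a b => h.1.trans _ _ _ b a⟩, fun a b c d h1 h2 => by
    rcases h.2 b a d c h1 h2 with h3 | h3
    · exact Or.inr h3
    · exact Or.inl h3⟩

theorem inc_rev {A P : ℕ → ℕ → Prop} (h : Inc A P) : Inc A (fun u v => P v u) := by
  intro u v
  rw [h u v]
  tauto

theorem nst_rev (P : ℕ → ℕ → Prop) (u v : ℕ) : nst (fun u v => P v u) u v ↔ nst P u v := by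
  unfold nst Ds Us
  exact and_comm

theorem nn_rev {P : ℕ → ℕ → Prop} {s : ℕ} (h : NN P s) : NN (fun u v => P v u) s := by
  unfold NN
  simp only [nst_rev]
  exact h

theorem t_IB : S_IB := by
  rintro A p ⟨P, hP, h, s, hN⟩ hA h0
  rw [co_eq hP.1 h] at h0
  rcases h0 with h0 | h0
  · exact main hP h hN hA h0
  · exact main (ivl_rev hP) (inc_rev h) (nn_rev hN) hA h0

end Pool.Agent.K1H3.IV
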